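import Pool.Agent.Helper82.FL2.VWEd
import Pool.Agent.Helper64.FL.FL9

/-!
# FL2-H1 VWE: `V[m]` preserves objectwise equivalences; generation by representable presheaves
-/

open CategoryTheory MonoidalCategory Opposite HomotopicalAlgebra

set_option autoImplicit false

namespace Pool.Agent.Helper82.FL2

open _root_.FL

section

variable {C : Type} [SmallCategory C] {m : ℕ}

theorem loc_vF_hoco {i : Fin m} {B : { j : Fin m // j ≠ i } → SP C} {X : SP (Wr C)}
    (hX : InjFib X) {K K' : LowerSet (Finset (Fin (m + 1)))} (h : K ≤ K') {J : Type}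
    [SmallCategory J] (p : J ⥤ SP C) (h0 : Loc X ((vI i B h).app (empt C)))
    (h1 : ∀ j, Loc X ((vI i B h).app (p.obj j))) : Loc X ((vI i B h).app (Hoco p)) := by
  refine Pool.Agent.Helper45.LOC.loc_glue hX (asPo i B K p) (asPo i B K' p)
    (fun a => mono_of_inj _ (asT_inj i B K p a)) (fun a => mono_of_inj _ (asT_inj i B K' p a))
    (tnMap ((vI i B h).app (empt C)) (𝟙 (Nv J))) (hocoMap (Functor.whiskerLeft p (vI i B h)))
    ((vI i B h).app (empt C)) ((vI i B h).app (Hoco p)) rfl rfl rfl rfl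
    (Pool.Agent.Helper45.LOC.loc_tensor hX _ h0 _) (loc_hoco hX _ h1) h0

/-- The comparison of the two descriptions of `V[m](B)`. -/
noncomputable def cmpK (i : Fin m) (B : Fin m → SP C) (K : LowerSet (Finset (Fin (m + 1)))) :
    (vK B K).toSP ⟶ (vF i (fun j => B j.1) K).obj (B i) where
  app θ :=
    { app := fun k => ↾ fun u =>
        ⟨{ f := (u.1 : VS B θ.unop k).f
           z := fun r h => (u.1 : VS B θ.unop k).g r i h
           g := fun j r h => (u.1 : VS B θ.unop k).g r j.1 h }, u.2⟩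
      naturality := fun _ _ _ => rfl }
  naturality _ _ _ := rfl

theorem cmpK_bij (i : Fin m) (B : Fin m → SP C) (K : LowerSet (Finset (Fin (m + 1))))
    (θ : (Wr C)ᵒᵖ) (k : SimplexCategoryᵒᵖ) :
    Function.Bijective (((cmpK i B K).app θ).app k) := by
  constructor
  · rintro ⟨⟨f, g⟩, hu⟩ ⟨⟨f', g'⟩, hu'⟩ h
    have h1 := congrArg Subtype.val h
    injection h1 with h2 h3 h4
    simp only at h2
    subst h2
    refine Subtype.ext (VS.ext' rfl fun r j hh hh' => ?_)
    by_cases hj : j = i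
    · subst hj
      exact congrFun (congrFun (eq_of_heq h3) r) hh
    · exact congrFun (congrFun (congrFun (eq_of_heq h4) ⟨j, hj⟩) r) hh
  · rintro ⟨⟨f, z, g⟩, hu⟩
    have key : ∀ r j (h : Jump f r j), ∃ x : ((B j).obj (op (θ.unop.obj r))).obj k,
        (∀ e : j = i, e ▸ x = z r (e ▸ h)) ∧ ∀ e : j ≠ i, x = g ⟨j, e⟩ r h := by
      intro r j h
      by_cases hj : j = i
      · subst hj
        exact ⟨z r h, fun e => rfl, fun e => (e rfl).elim⟩
      · exact ⟨g ⟨j, hj⟩ r h, fun e => (hj e).elim, fun e => rfl⟩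
    choose x hx hx' using key
    refine ⟨⟨{ f := f, g := x }, hu⟩, ?_⟩
    exact Subtype.ext (VP.ext' rfl (fun r h h' => hx r i h rfl) fun j r h h' => hx' r j.1 h j.2)

/-- Objectwise bijective maps of simplicial presheaves are isomorphisms. -/
theorem exists_iso {A : Type} [SmallCategory A] {P Q : SP A} (f : P ⟶ Q)
    (h : ∀ a k, Function.Bijective ((f.app a).app k)) : ∃ e : P ≅ Q, e.hom = f := by
  have : ∀ a, IsIso (f.app a) := fun a => isIso_of_bij _ (h a)
  have : IsIso f := NatIso.isIso_of_isIso_app f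
  exact ⟨asIso f, rfl⟩

theorem locT_iff {X : SP (Wr C)} (i : Fin m) (B : Fin m → SP C)
    {K K' : LowerSet (Finset (Fin (m + 1)))} (h : K ≤ K') :
    LocT X (vK B K) (vK B K') ↔ Loc X ((vI i (fun j => B j.1) h).app (B i)) := by
  obtain ⟨e, he⟩ := exists_iso _ (cmpK_bij i B K)
  obtain ⟨e', he'⟩ := exists_iso _ (cmpK_bij i B K')
  constructor
  · rintro ⟨h', h1⟩
    refine Pool.Agent.Helper45.LOC.loc_of_arrow_iso e e' ?_ h1
    rw [he, he']
    rfl
  · intro h1
    refine ⟨fun _ _ _ hx => h hx, ?_⟩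
    refine Pool.Agent.Helper45.LOC.loc_of_arrow_iso e.symm e'.symm ?_ h1
    rw [Iso.symm_hom, Iso.symm_hom, Iso.eq_inv_comp, ← Category.assoc, Iso.comp_inv_eq, he, he']
    rfl

theorem mem_NC_iff {a : ℕ} (f : Fin (a + 1) →o Fin (m + 1)) (i : Fin m) :
    Finset.univ.image f ∈ NC i ↔ ∀ r, ¬ Jump f r i := by
  constructor
  · intro h r hr
    have h1 : f r.castSucc ∈ Finset.univ.image f := Finset.mem_image_of_mem _ (Finset.mem_univ _)
    have h2 : f r.succ ∈ Finset.univ.image f := Finset.mem_image_of_mem _ (Finset.mem_univ _)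
    rcases h with h | h
    · exact absurd (hr.2.trans (h _ h2)) (not_le.mpr (Fin.castSucc_lt_succ))
    · exact absurd ((h _ h1).trans hr.1) (not_le.mpr (Fin.castSucc_lt_succ))
  · intro h
    by_contra hc
    have h1 : ¬ ((∀ a ∈ Finset.univ.image f, a ≤ i.castSucc) ∨
      ∀ a ∈ Finset.univ.image f, i.succ ≤ a) := hc
    push Not at h1
    obtain ⟨⟨x, hx, hx'⟩, y, hy, hy'⟩ := h1
    obtain ⟨q, _, rfl⟩ := Finset.mem_image.mp hx
    obtain ⟨p, _, rfl⟩ := Finset.mem_image.mp hy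
    obtain ⟨r, _, _, hr⟩ := exists_jump f i (p := p) (q := q)
      (by rw [Fin.lt_def] at hy'; rw [Fin.le_def]; simp at hy' ⊢; omega)
      (by rw [Fin.lt_def] at hx'; rw [Fin.le_def]; simp at hx' ⊢; omega)
    exact h r hr

/-- The part of `V(K)` whose simplices do not cross the gap `i`. -/
noncomputable def emK (i : Fin m) (B : { j : Fin m // j ≠ i } → SP C) (Z : SP C)
    (K : LowerSet (Finset (Fin (m + 1)))) :
    (vF i B K).obj (empt C) ⟶ (vF i B (K ⊓ NC i)).obj Z :=
  Sb.restr (vpMap i B (emptTo Z)) (vpK i B (empt C) K) (vpK i B Z (K ⊓ NC i))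
    fun _ _ (u : VP i B (empt C) _ _) hu =>
      ⟨hu, (mem_NC_iff u.f i).mpr fun r hr => PEmpty.elim (u.z r hr)⟩

theorem emK_bij (i : Fin m) (B : { j : Fin m // j ≠ i } → SP C) (Z : SP C)
    (K : LowerSet (Finset (Fin (m + 1)))) (θ : (Wr C)ᵒᵖ) (k : SimplexCategoryᵒᵖ) :
    Function.Bijective (((emK i B Z K).app θ).app k) := by
  constructor
  · rintro ⟨⟨f, z, g⟩, hu⟩ ⟨⟨f', z', g'⟩, hu'⟩ h
    have h1 := congrArg Subtype.val h
    injection h1 with h2 h3 h4
    subst h2
    subst h4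
    exact Subtype.ext (VP.ext' rfl (fun r h h' => PEmpty.elim (z r h)) fun j r h h' => rfl)
  · rintro ⟨⟨f, z, g⟩, hu⟩
    have h1 := (mem_NC_iff f i).mp hu.2
    refine ⟨⟨{ f := f, z := fun r h => (h1 r h).elim, g := g }, hu.1⟩, ?_⟩
    exact Subtype.ext (VP.ext' rfl (fun r h h' => (h1 r h').elim) fun j r h h' => rfl)

theorem loc_empt_iff {X : SP (Wr C)} (i : Fin m) (B : { j : Fin m // j ≠ i } → SP C) (Z : SP C)
    {K K' : LowerSet (Finset (Fin (m + 1)))} (h : K ≤ K') (h' : K ⊓ NC i ≤ K' ⊓ NC i)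
    (h1 : Loc X ((vI i B h').app Z)) : Loc X ((vI i B h).app (empt C)) := by
  obtain ⟨e, he⟩ := exists_iso _ (emK_bij i B Z K)
  obtain ⟨e', he'⟩ := exists_iso _ (emK_bij i B Z K')
  refine Pool.Agent.Helper45.LOC.loc_of_arrow_iso e.symm e'.symm ?_ h1
  rw [Iso.symm_hom, Iso.symm_hom, Iso.eq_inv_comp, ← Category.assoc, Iso.comp_inv_eq, he, he']
  rfl

theorem loc_update {X : SP (Wr C)} (i : Fin m) (B : Fin m → SP C) (Z : SP C)
    {K K' : LowerSet (Finset (Fin (m + 1)))} (h : K ≤ K') :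
    LocT X (vK (Function.update B i Z) K) (vK (Function.update B i Z) K') ↔
      Loc X ((vI i (fun j => B j.1) h).app Z) := by
  rw [locT_iff i (Function.update B i Z) h]
  have e1 : (fun j : { j : Fin m // j ≠ i } => Function.update B i Z j.1) = fun j => B j.1 :=
    funext fun j => Function.update_of_ne j.2 _ _
  rw [e1, Function.update_self]

theorem vK_generate {X : SP (Wr C)} (hX : InjFib X) {m : ℕ} (B : Fin m → SP C) (i : Fin m)
    (K K' : LowerSet (Finset (Fin (m + 1)))) (hKK' : K ≤ K')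
    (h0 : LocT X (vK B (K ⊓ NC i)) (vK B (K' ⊓ NC i)))
    (h1 : ∀ c : C, LocT X (vK (Function.update B i (rep c)) K)
      (vK (Function.update B i (rep c)) K')) : LocT X (vK B K) (vK B K') := by
  have hNC : K ⊓ NC i ≤ K' ⊓ NC i := inf_le_inf_right _ hKK'
  have h2 : Loc X ((vI i (fun j => B j.1) hKK').app (empt C)) :=
    loc_empt_iff i _ (B i) hKK' hNC ((locT_iff i B hNC).mp h0)
  have h3 : Loc X ((vI i (fun j => B j.1) hKK').app (Hoco (canDiag (B i)))) :=
    loc_vF_hoco hX hKK' (canDiag (B i)) h2 fun e => (loc_update i B (rep e.a) hKK').mp (h1 e.a)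
  obtain ⟨h4, h4'⟩ := (loc_update i B (Hoco (canDiag (B i))) hKK').mpr h3
  have h5 : ∀ j, ∃ q : Function.update B i (Hoco (canDiag (B i))) j ⟶ B j,
      ∀ a, WE (q.app a) := by
    intro j
    by_cases hj : j = i
    · subst hj
      rw [Function.update_self]
      exact ⟨canCone (B j), fun a => Pool.Agent.Helper64.FLCan.canCone_we (B j) a⟩
    · rw [Function.update_of_ne hj]
      exact ⟨𝟙 _, fun a => we_of_isIso _⟩
  choose q hq using h5
  have hle : vK B K ≤ vK B K' := fun _ _ _ hx => hKK' hx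
  refine ⟨hle, ?_⟩
  have w1 : Loc X (Sb.restr (V.map q) (vK _ K) (vK B K) fun _ _ _ h => h) :=
    Pool.Agent.Helper45.LOC.loc_of_we hX _ (V_we q hq K)
  have w2 : Loc X (Sb.restr (V.map q) (vK _ K') (vK B K') fun _ _ _ h => h) :=
    Pool.Agent.Helper45.LOC.loc_of_we hX _ (V_we q hq K')
  refine Pool.Agent.Helper45.LOC.loc_of_comp_left hX w1 ?_
  have e : Sb.restr (V.map q) (vK _ K) (vK B K) (fun _ _ _ h => h) ≫ Sb.ofLE hle =
    Sb.ofLE h4 ≫ Sb.restr (V.map q) (vK _ K') (vK B K') fun _ _ _ h => h := rfl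
  rw [e]
  exact Pool.Agent.Helper45.LOC.loc_comp hX h4' w2

end

end Pool.Agent.Helper82.FL2
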