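import Pool.Agent.Helper58.FL2.Flag2
import Pool.Agent.Helper83.FL.MpFibFinal
import Pool.Agent.Helper36.FL.Cyl

/-!
# FL2-H1 (first part): `V[m]` preserves objectwise weak equivalences
-/

open CategoryTheory MonoidalCategory Opposite HomotopicalAlgebra

set_option autoImplicit false

namespace Pool.Agent.Helper82.FL2

open _root_.FL

section Basic

theorem isIso_of_bij {X Y : SSet.{0}} (f : X ⟶ Y) (h : ∀ k, Function.Bijective (f.app k)) :
    IsIso f := by
  have : ∀ k, IsIso (f.app k) := fun k => (isIso_iff_bijective _).mpr (h k)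
  exact NatIso.isIso_of_isIso_app f

theorem mono_of_inj {X Y : SSet.{0}} (f : X ⟶ Y) (h : ∀ k, Function.Injective (f.app k)) :
    Mono f := by
  have : ∀ k, Mono (f.app k) := fun k => (mono_iff_injective _).mpr (h k)
  exact NatTrans.mono_of_mono_app _

theorem inj_of_mono {X Y : SSet.{0}} (f : X ⟶ Y) [Mono f] (k : SimplexCategoryᵒᵖ) :
    Function.Injective (f.app k) := by
  rw [← mono_iff_injective]
  infer_instance

theorem we_of_isIso {X Y : SSet.{0}} (f : X ⟶ Y) [IsIso f] : WE f :=
  Helper85FL.we_of_hoEq ⟨inv f, Pool.Agent.Helper36.FL.htpy_of_eq (IsIso.hom_inv_id f),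
    Pool.Agent.Helper36.FL.htpy_of_eq (IsIso.inv_hom_id f)⟩

theorem we_of_square {X Y X' Y' : SSet.{0}} {f : X ⟶ Y} {f' : X' ⟶ Y'} (a : X ⟶ X')
    (b : Y ⟶ Y') [IsIso a] [IsIso b] (h : f ≫ b = a ≫ f') (hf : WE f) : WE f' := by
  have e : f' = inv a ≫ f ≫ b := by rw [h, IsIso.inv_hom_id_assoc]
  rw [e]
  exact Helper85FL.we_comp (we_of_isIso _) (Helper85FL.we_comp hf (we_of_isIso _))

theorem we_whiskerLeft (Z : SSet.{0}) {X Y : SSet.{0}} (i : X ⟶ Y) [Mono i] (h : WE i) :
    WE (Z ◁ i) := by
  have hm : Mono (Z ◁ i) := Pool.Agent.Helper45.FL2.mono_whiskerLeft Z i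
  refine Helper85FL.we_of_lift_kan _ fun {E B} p hE hB hp => ?_
  have h1 : HasLiftingProperty i ((ihom Z).map p) := by
    refine Helper85FL.lift_of_we i h _ (Helper85FL.kan_ihom Z hE) (Helper85FL.kan_ihom Z hB) ?_
    have := (Pool.Agent.Helper83.FL4.kanFib_iff p).1 hp
    rw [Pool.Agent.Helper83.FL4.kanFib_iff]
    infer_instance
  exact ((ihom.adjunction Z).hasLiftingProperty_iff i p).mpr h1

theorem we_whiskerRight {X Y : SSet.{0}} (i : X ⟶ Y) [Mono i] (h : WE i) (Z : SSet.{0}) :
    WE (i ▷ Z) := by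
  refine we_of_square (β_ Z X).hom (β_ Z Y).hom ?_ (we_whiskerLeft Z i h)
  exact BraidedCategory.braiding_naturality_right Z i

end Basic

section Prod

/-- The product of a family of simplicial sets. -/
def PiS {ι : Type} (X : ι → SSet.{0}) : SSet.{0} where
  obj k := ∀ i, (X i).obj k
  map α := ↾ fun x i => (X i).map α (x i)
  map_id k := by
    refine ConcreteCategory.hom_ext _ _ fun x => ?_
    exact funext fun i => sset_id _ (x i)
  map_comp α β := by
    refine ConcreteCategory.hom_ext _ _ fun x => ?_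
    exact funext fun i => sset_comp _ α β (x i)

/-- Functoriality of the product. -/
def PiS.map {ι : Type} {X Y : ι → SSet.{0}} (p : ∀ i, X i ⟶ Y i) : PiS X ⟶ PiS Y where
  app k := ↾ fun x i => (p i).app k (x i)
  naturality k l α := by
    refine ConcreteCategory.hom_ext _ _ fun x => ?_
    exact funext fun i => sset_nat (p i) α (x i)

theorem PiS.map_inj {ι : Type} {X Y : ι → SSet.{0}} (p : ∀ i, X i ⟶ Y i)
    (hp : ∀ i, Mono (p i)) (k : SimplexCategoryᵒᵖ) : Function.Injective ((PiS.map p).app k) := by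
  intro x y h
  funext i
  have := hp i
  exact inj_of_mono (p i) k (congrFun h i)

/-- Reindexing. -/
def PiS.re {ι κ : Type} (e : ι → κ) (X : κ → SSet.{0}) : PiS X ⟶ PiS (fun i => X (e i)) where
  app k := ↾ fun x i => x (e i)
  naturality _ _ _ := rfl

theorem PiS.re_isIso {ι κ : Type} (e : ι ≃ κ) (X : κ → SSet.{0}) : IsIso (PiS.re e X) := by
  refine isIso_of_bij _ fun k => ⟨?_, ?_⟩
  · intro x y h
    funext i
    obtain ⟨j, rfl⟩ := e.surjective i
    exact congrFun h j
  · intro y
    refine ⟨(Equiv.piCongrLeft (fun i => (X i).obj k) e) y, ?_⟩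
    funext i
    exact Equiv.piCongrLeft_apply_apply (fun i => (X i).obj k) e y i

/-- The product indexed by `Option ι`. -/
def PiS.opt {ι : Type} (X : Option ι → SSet.{0}) :
    PiS X ⟶ X none ⊗ PiS (fun i => X (some i)) where
  app k := ↾ fun x => (x none, fun i => x (some i))
  naturality _ _ _ := rfl

theorem PiS.opt_isIso {ι : Type} (X : Option ι → SSet.{0}) : IsIso (PiS.opt X) := by
  refine isIso_of_bij _ fun _ => ⟨?_, ?_⟩
  · intro x y h
    funext i
    cases i with
    | none => exact congrArg Prod.fst h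
    | some i => exact congrFun (congrArg Prod.snd h) i
  · rintro ⟨a, b⟩
    exact ⟨fun i => match i with
      | none => a
      | some i => b i, rfl⟩

theorem PiS.map_we {ι : Type} [Finite ι] : ∀ {X Y : ι → SSet.{0}} (p : ∀ i, X i ⟶ Y i),
    (∀ i, Mono (p i)) → (∀ i, WE (p i)) → WE (PiS.map p) := by
  induction ι using Finite.induction_empty_option with
  | of_equiv e h =>
    intro X Y p hm hp
    have h1 := PiS.re_isIso e X
    have h2 := PiS.re_isIso e Y
    have h3 := h (fun i => p (e i)) (fun i => hm _) fun i => hp _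
    refine we_of_square (inv (PiS.re e X)) (inv (PiS.re e Y)) ?_ h3
    rw [IsIso.eq_inv_comp, ← Category.assoc, IsIso.comp_inv_eq]
    rfl
  | h_empty =>
    intro X Y p hm hp
    have : IsIso (PiS.map p) := by
      refine isIso_of_bij _ fun _ => ⟨?_, ?_⟩
      · intro x y _
        funext i
        exact i.elim
      · intro y
        refine ⟨fun i => i.elim, ?_⟩
        funext i
        exact i.elim
    exact we_of_isIso _
  | h_option h =>
    intro X Y p hm hp
    have h1 := PiS.opt_isIso X
    have h2 := PiS.opt_isIso Y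
    have h3 := h (fun i => p (some i)) (fun i => hm _) fun i => hp _
    have h4 : WE (p none ⊗ₘ PiS.map fun i => p (some i)) := by
      have := hm none
      have : Mono (PiS.map fun i => p (some i)) :=
        mono_of_inj _ (PiS.map_inj _ fun i => hm _)
      rw [MonoidalCategory.tensorHom_def]
      exact Helper85FL.we_comp (we_whiskerRight _ (hp none) _) (we_whiskerLeft _ _ h3)
    refine we_of_square (inv (PiS.opt X)) (inv (PiS.opt Y)) ?_ h4
    rw [IsIso.eq_inv_comp, ← Category.assoc, IsIso.comp_inv_eq]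
    rfl

end Prod

section VWE

variable {C : Type} [SmallCategory C] {m : ℕ}

/-- The restriction of `V[m](p)` to the sub-presheaves attached to `K`. -/
noncomputable def vM {B B' : Fin m → SP C} (p : ∀ j, B j ⟶ B' j)
    (K : LowerSet (Finset (Fin (m + 1)))) : (vK B K).toSP ⟶ (vK B' K).toSP :=
  Sb.restr (V.map p) (vK B K) (vK B' K) fun _ _ _ h => h

theorem vM_comp {B B' B'' : Fin m → SP C} (p : ∀ j, B j ⟶ B' j) (q : ∀ j, B' j ⟶ B'' j)
    (K : LowerSet (Finset (Fin (m + 1)))) :
    vM (fun j => p j ≫ q j) K = vM p K ≫ vM q K := rfl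

theorem vM_sdr {B B' : Fin m → SP C} (p : ∀ j, B j ⟶ B' j) (hp : ∀ j, SDR (p j))
    (K : LowerSet (Finset (Fin (m + 1)))) : SDR (vM p K) := by
  choose s hs h h0 h1 using hp
  refine ⟨vM s K, ?_,
    { app := fun θ k t u => ⟨{ f := (u.1 : VS B θ.unop k).f
                               g := fun i j hh => (h j).app (op (θ.unop.obj i)) k t
                                 ((u.1 : VS B θ.unop k).g i j hh) }, u.2⟩
      nat_left := fun {θ θ'} φ k t u => by
        refine Subtype.ext (VS.ext' rfl fun i j hh hh' => ?_)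
        obtain ⟨r, hr, hr'⟩ := Jump.split (f := Wr.Hom.f φ.unop)
          (g := (u.1 : VS B θ.unop k).f) hh
        refine Eq.trans ?_ (VS.mapθ_g φ.unop ({ f := (u.1 : VS B θ.unop k).f
                                                g := fun i j hh =>
                                                  (h j).app (op (θ.unop.obj i)) k t
                                                    ((u.1 : VS B θ.unop k).g i j hh) } :
          VS B θ.unop k) hr hr').symm
        refine Eq.trans ?_ ((h j).nat_left (Wr.Hom.g φ.unop i r hr).op k t _)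
        exact congrArg ((h j).app (op (θ'.unop.obj i)) k t)
          (VS.mapθ_g φ.unop (u.1 : VS B θ.unop k) hr hr')
      nat_right := fun θ {k l} g t u => by
        refine Subtype.ext (VS.ext' rfl fun i j hh hh' => ?_)
        exact (h j).nat_right (op (θ.unop.obj i)) g t _ }, ?_, ?_⟩
  · refine NatTrans.ext (funext fun θ => NatTrans.ext (funext fun k => ?_))
    refine ConcreteCategory.hom_ext _ _ fun u => ?_
    refine Subtype.ext (VS.ext' rfl fun i j hh hh' => ?_)
    exact ConcreteCategory.congr_hom (NatTrans.congr_app (NatTrans.congr_app (hs j)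
      (op (θ.unop.obj i))) k) ((u.1 : VS B' θ.unop k).g i j hh)
  · refine MpS.ext ?_
    funext θ k t u
    refine Subtype.ext (VS.ext' rfl fun i j hh hh' => ?_)
    exact congrArg (fun z : MpS (B j) (B j) _ => z.app (op (θ.unop.obj i)) k t
      ((u.1 : VS B θ.unop k).g i j hh)) (h0 j)
  · refine MpS.ext ?_
    funext θ k t u
    refine Subtype.ext (VS.ext' rfl fun i j hh hh' => ?_)
    exact congrArg (fun z : MpS (B j) (B j) _ => z.app (op (θ.unop.obj i)) k t
      ((u.1 : VS B θ.unop k).g i j hh)) (h1 j)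

/-- The summands of `V[m](B)(θ)`. -/
def sm (B : Fin m → SP C) {θ : Wr C} (f : Fin (θ.len + 1) →o Fin (m + 1))
    (x : { x : Fin θ.len × Fin m // Jump f x.1 x.2 }) : SSet.{0} :=
  (B x.1.2).obj (op (θ.obj x.1.1))

/-- The inclusion of a summand. -/
noncomputable def smIn (B : Fin m → SP C) (K : LowerSet (Finset (Fin (m + 1))))
    (θ : (Wr C)ᵒᵖ) (f : Fin (θ.unop.len + 1) →o Fin (m + 1)) (hf : Finset.univ.image f ∈ K) :
    PiS (sm B f) ⟶ (vK B K).toSP.obj θ where
  app k := ↾ fun x => ⟨{ f := f, g := fun i j h => x ⟨(i, j), h⟩ }, hf⟩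
  naturality _ _ _ := rfl

/-- The maps of the factors of the summands. -/
def smP {B B' : Fin m → SP C} (p : ∀ j, B j ⟶ B' j) {θ : Wr C}
    (f : Fin (θ.len + 1) →o Fin (m + 1)) (x : { x : Fin θ.len × Fin m // Jump f x.1 x.2 }) :
    sm B f x ⟶ sm B' f x :=
  (p x.1.2).app (op (θ.obj x.1.1))

theorem vM_we_mono {B B' : Fin m → SP C} (p : ∀ j, B j ⟶ B' j)
    (hm : ∀ j a, Mono ((p j).app a)) (hp : ∀ j a, WE ((p j).app a))
    (K : LowerSet (Finset (Fin (m + 1)))) (θ : (Wr C)ᵒᵖ) : WE ((vM p K).app θ) := by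
  have hmono : Mono ((vM p K).app θ) := by
    refine mono_of_inj _ fun k => ?_
    rintro ⟨u, hu⟩ ⟨v, hv⟩ h
    have h1 : (u : VS B θ.unop k).push p = (v : VS B θ.unop k).push p := congrArg Subtype.val h
    refine Subtype.ext ?_
    obtain ⟨f, g⟩ := u
    obtain ⟨f', g'⟩ := v
    have h2 : f = f' := congrArg VS.f h1
    subst h2
    refine VS.ext' rfl fun i j hh hh' => ?_
    injection h1 with _ h3
    have h4 := congrFun (congrFun (congrFun h3 i) j) hh
    have := hm j (op (θ.unop.obj i))
    exact inj_of_mono ((p j).app (op (θ.unop.obj i))) k h4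
  refine Helper85FL.we_of_lift_kan _ fun {E D} q hE hD hq => ⟨fun {t b} sq => ?_⟩
  have key : ∀ (f : Fin (θ.unop.len + 1) →o Fin (m + 1)) (hf : Finset.univ.image f ∈ K),
      ∃ l : PiS (sm B' f) ⟶ E,
        PiS.map (smP p f) ≫ l = smIn B K θ f hf ≫ t ∧ l ≫ q = smIn B' K θ f hf ≫ b := by
    intro f hf
    have h1 : WE (PiS.map (smP p f)) := PiS.map_we _ (fun x => hm _ _) fun x => hp _ _
    have h2 : Mono (PiS.map (smP p f)) := mono_of_inj _ (PiS.map_inj _ fun x => hm _ _)
    have h3 : HasLiftingProperty (PiS.map (smP p f)) q := Helper85FL.lift_of_we _ h1 q hE hD hq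
    have sq' : CommSq (smIn B K θ f hf ≫ t) (PiS.map (smP p f)) q (smIn B' K θ f hf ≫ b) := by
      refine ⟨?_⟩
      rw [Category.assoc, sq.w]
      rfl
    exact ⟨sq'.lift, sq'.fac_left, sq'.fac_right⟩
  choose l hl hl' using key
  refine ⟨⟨{ l := { app := fun k => ↾ fun u => (l (u.1 : VS B' θ.unop k).f u.2).app k
                      (fun x : { x : Fin θ.unop.len × Fin m //
                          Jump (u.1 : VS B' θ.unop k).f x.1 x.2 } =>
                        (u.1 : VS B' θ.unop k).g x.1.1 x.1.2 x.2)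
                    naturality := fun k k' α => by
                      refine ConcreteCategory.hom_ext _ _ fun u => ?_
                      exact sset_nat (l (u.1 : VS B' θ.unop k).f u.2) α
                        (fun x : { x : Fin θ.unop.len × Fin m //
                          Jump (u.1 : VS B' θ.unop k).f x.1 x.2 } =>
                        (u.1 : VS B' θ.unop k).g x.1.1 x.1.2 x.2) }
             fac_left := ?_
             fac_right := ?_ }⟩⟩
  · refine NatTrans.ext (funext fun k => ?_)
    refine ConcreteCategory.hom_ext _ _ fun u => ?_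
    exact ConcreteCategory.congr_hom (NatTrans.congr_app (hl (u.1 : VS B θ.unop k).f u.2) k)
      (fun x : { x : Fin θ.unop.len × Fin m // Jump (u.1 : VS B θ.unop k).f x.1 x.2 } =>
        (u.1 : VS B θ.unop k).g x.1.1 x.1.2 x.2)
  · refine NatTrans.ext (funext fun k => ?_)
    refine ConcreteCategory.hom_ext _ _ fun u => ?_
    exact ConcreteCategory.congr_hom (NatTrans.congr_app (hl' (u.1 : VS B' θ.unop k).f u.2) k)
      (fun x : { x : Fin θ.unop.len × Fin m // Jump (u.1 : VS B' θ.unop k).f x.1 x.2 } =>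
        (u.1 : VS B' θ.unop k).g x.1.1 x.1.2 x.2)

theorem V_we {m : ℕ} {B B' : Fin m → SP C} (p : ∀ j, B j ⟶ B' j)
    (hp : ∀ j a, WE ((p j).app a)) (K : LowerSet (Finset (Fin (m + 1)))) (a : (Wr C)ᵒᵖ) :
    WE ((Sb.restr (V.map p) (vK B K) (vK B' K) fun _ _ _ h => h).app a) := by
  have h0 := fun j => Pool.Agent.Helper36.FL.exists_cyl (p j)
  choose Y i r hir hi hr using h0
  have hwi : ∀ j b, WE ((i j).app b) := by
    intro j b
    refine Helper85FL.we_of_comp_right (g := (r j).app b)
      (Helper85FL.we_of_hoEq (Pool.Agent.Helper36.FL.SDR.app_hoEq (hr j) b)) ?_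
    have h1 : (i j).app b ≫ (r j).app b = (p j).app b := by rw [← hir j]; rfl
    rw [h1]
    exact hp j b
  have e : (Sb.restr (V.map p) (vK B K) (vK B' K) fun _ _ _ h => h) = vM i K ≫ vM r K := by
    rw [← vM_comp]
    have : p = fun j => i j ≫ r j := funext fun j => (hir j).symm
    subst this
    rfl
  rw [e]
  exact Helper85FL.we_comp (vM_we_mono i hi hwi K a)
    (Helper85FL.we_of_hoEq (Pool.Agent.Helper36.FL.SDR.app_hoEq (vM_sdr r hr K) a))

end VWE

end Pool.Agent.Helper82.FL2
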