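import Pool.Agent.Helper58.FL2.Flag2

/-!
# FL2-H1 (second part): the functor `Z ↦ V[m](B_1, …, Z, …, B_m)`
-/

open CategoryTheory MonoidalCategory Opposite HomotopicalAlgebra

set_option autoImplicit false

namespace Pool.Agent.Helper82.FL2

open _root_.FL

variable {C : Type} [SmallCategory C] {m : ℕ}

/-- The components of a simplex of `V[m](B)` at one label. -/
abbrev LS (Y : SP C) {a : ℕ} (c : Fin a → C) (f : Fin (a + 1) →o Fin (m + 1)) (i : Fin m)
    (k : SimplexCategoryᵒᵖ) : Type :=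
  ∀ r : Fin a, Jump f r i → (Y.obj (op (c r))).obj k

/-- The presheaf structure on the components. -/
noncomputable def LS.pull {Y : SP C} {θ θ' : Wr C} (φ : θ' ⟶ θ)
    {f : Fin (θ.len + 1) →o Fin (m + 1)} {i : Fin m} {k : SimplexCategoryᵒᵖ}
    (z : LS Y θ.obj f i k) : LS Y θ'.obj (f.comp (Wr.Hom.f φ)) i k := fun r h =>
  (Y.map (Wr.Hom.g φ r h.split.choose h.split.choose_spec.1).op).app k
    (z h.split.choose h.split.choose_spec.2)

theorem LS.pull_apply {Y : SP C} {θ θ' : Wr C} (φ : θ' ⟶ θ)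
    {f : Fin (θ.len + 1) →o Fin (m + 1)} {i : Fin m} {k : SimplexCategoryᵒᵖ}
    (z : LS Y θ.obj f i k) {r : Fin θ'.len} {j : Fin θ.len} (h : Jump (Wr.Hom.f φ) r j)
    (h' : Jump f j i) :
    z.pull φ r (h.comp h') = (Y.map (Wr.Hom.g φ r j h).op).app k (z j h') := by
  have hj := (h.comp h').split.choose_spec
  have e : (h.comp h').split.choose = j := hj.2.unique h'
  show (Y.map (Wr.Hom.g φ r _ hj.1).op).app k (z _ hj.2) = _
  have aux : ∀ j' (e : j' = j) (h1 : Jump (Wr.Hom.f φ) r j') (h2 : Jump f j' i),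
      (Y.map (Wr.Hom.g φ r j' h1).op).app k (z j' h2) =
        (Y.map (Wr.Hom.g φ r j h).op).app k (z j h') := by
    rintro j' rfl h1 h2; rfl
  exact aux _ e _ _

theorem LS.pull_id {Y : SP C} {θ : Wr C} {f : Fin (θ.len + 1) →o Fin (m + 1)} {i : Fin m}
    {k : SimplexCategoryᵒᵖ} (z : LS Y θ.obj f i k) : z.pull (𝟙 θ) = z := by
  funext r h
  refine (LS.pull_apply (𝟙 θ) z (jump_id.mpr rfl) h).trans ?_
  exact sp_id Y _

theorem LS.pull_comp {Y : SP C} {θ θ' θ'' : Wr C} (φ : θ' ⟶ θ) (ψ : θ'' ⟶ θ')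
    {f : Fin (θ.len + 1) →o Fin (m + 1)} {i : Fin m} {k : SimplexCategoryᵒᵖ}
    (z : LS Y θ.obj f i k) : z.pull (ψ ≫ φ) = (z.pull φ).pull ψ := by
  funext r h
  obtain ⟨j, hr, hr'⟩ := Jump.split (f := Wr.Hom.f (ψ ≫ φ)) (g := f) h
  obtain ⟨s, hs, hs'⟩ := Jump.split (f := Wr.Hom.f ψ) (g := Wr.Hom.f φ) hr
  refine (LS.pull_apply (ψ ≫ φ) z hr hr').trans ?_
  refine Eq.trans ?_ (LS.pull_apply ψ (z.pull φ) hs (hs'.comp hr')).symm
  rw [LS.pull_apply φ z hs' hr']
  have e := Wr.comp_g ψ φ hs hs'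
  have e' : Wr.Hom.g (ψ ≫ φ) r j hr = Wr.Hom.g (ψ ≫ φ) r j (hs.comp hs') := rfl
  rw [e', e, op_comp]
  exact sp_comp Y _ _ _

/-- A simplex of `V[m](B)` at `θ`, the label `i` being separated. -/
structure VP (i : Fin m) (B : { j : Fin m // j ≠ i } → SP C) (Z : SP C) (θ : Wr C)
    (k : SimplexCategoryᵒᵖ) : Type where
  f : Fin (θ.len + 1) →o Fin (m + 1)
  z : LS Z θ.obj f i k
  g : ∀ j : { j : Fin m // j ≠ i }, LS (B j) θ.obj f j.1 k

variable {i : Fin m} {B : { j : Fin m // j ≠ i } → SP C}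

theorem VP.ext' {Z : SP C} {θ : Wr C} {k : SimplexCategoryᵒᵖ} {u v : VP i B Z θ k}
    (hf : u.f = v.f) (hz : ∀ r h h', u.z r h = v.z r h')
    (hg : ∀ j r h h', u.g j r h = v.g j r h') : u = v := by
  obtain ⟨f, z, g⟩ := u
  obtain ⟨f', z', g'⟩ := v
  simp only at hf
  subst hf
  have h1 : z = z' := funext fun r => funext fun h => hz r h h
  have h2 : g = g' := funext fun j => funext fun r => funext fun h => hg j r h h
  rw [h1, h2]

/-- The presheaf `V[m](B)`, the label `i` being separated. -/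
noncomputable def vp (i : Fin m) (B : { j : Fin m // j ≠ i } → SP C) (Z : SP C) : SP (Wr C) where
  obj θ :=
    { obj := fun k => VP i B Z θ.unop k
      map := fun {k l} α => ↾ fun u =>
        { f := u.f
          z := fun r h => (Z.obj (op (θ.unop.obj r))).map α (u.z r h)
          g := fun j r h => ((B j).obj (op (θ.unop.obj r))).map α (u.g j r h) }
      map_id := fun k => by
        refine ConcreteCategory.hom_ext _ _ fun u => ?_
        exact VP.ext' rfl (fun r h h' => sset_id _ _) fun j r h h' => sset_id _ _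
      map_comp := fun {k l n} α β => by
        refine ConcreteCategory.hom_ext _ _ fun u => ?_
        exact VP.ext' rfl (fun r h h' => sset_comp _ _ _ _) fun j r h h' => sset_comp _ _ _ _ }
  map {θ θ'} φ :=
    { app := fun k => ↾ fun u =>
        { f := u.f.comp (Wr.Hom.f φ.unop)
          z := u.z.pull φ.unop
          g := fun j => (u.g j).pull φ.unop }
      naturality := fun k l α => by
        refine ConcreteCategory.hom_ext _ _ fun u => ?_
        exact VP.ext' rfl (fun r h h' => sp_nat Z _ α _) fun j r h h' => sp_nat (B j) _ α _ }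
  map_id θ := by
    refine NatTrans.ext (funext fun k => ConcreteCategory.hom_ext _ _ fun u => ?_)
    exact VP.ext' rfl (fun r h h' => congrFun (congrFun (LS.pull_id u.z) r) h)
      fun j r h h' => congrFun (congrFun (LS.pull_id (u.g j)) r) h
  map_comp {θ θ' θ''} φ ψ := by
    refine NatTrans.ext (funext fun k => ConcreteCategory.hom_ext _ _ fun u => ?_)
    exact VP.ext' rfl
      (fun r h h' => congrFun (congrFun (LS.pull_comp φ.unop ψ.unop u.z) r) h)
      fun j r h h' => congrFun (congrFun (LS.pull_comp φ.unop ψ.unop (u.g j)) r) h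

/-- Functoriality of `V[m](B)` in the label `i`. -/
noncomputable def vpMap (i : Fin m) (B : { j : Fin m // j ≠ i } → SP C) {Z Z' : SP C}
    (p : Z ⟶ Z') : vp i B Z ⟶ vp i B Z' where
  app θ :=
    { app := fun k => ↾ fun u =>
        { f := u.f
          z := fun r h => (p.app (op (θ.unop.obj r))).app k (u.z r h)
          g := u.g }
      naturality := fun k l α => by
        refine ConcreteCategory.hom_ext _ _ fun u => ?_
        exact VP.ext' rfl (fun r h h' => hom_natk p α _) fun j r h h' => rfl }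
  naturality θ θ' φ := by
    refine NatTrans.ext (funext fun k => ConcreteCategory.hom_ext _ _ fun u => ?_)
    exact VP.ext' rfl (fun r h h' => hom_nat p _ _) fun j r h h' => rfl

/-- The sub-presheaf of `V[m](B)` attached to a family of vertex sets. -/
noncomputable def vpK (i : Fin m) (B : { j : Fin m // j ≠ i } → SP C) (Z : SP C)
    (K : LowerSet (Finset (Fin (m + 1)))) : Sb (vp i B Z) where
  mem θ k := fun (u : VP i B Z θ.unop k) => Finset.univ.image u.f ∈ K
  mapA := by
    rintro θ θ' φ k u h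
    refine K.lower ?_ h
    intro a ha
    obtain ⟨i, _, rfl⟩ := Finset.mem_image.mp ha
    exact Finset.mem_image.mpr ⟨_, Finset.mem_univ _, rfl⟩
  mapk := by
    rintro θ k l α u h
    exact h

/-- The functor `Z ↦ V[m](B_1, …, Z, …, B_m)`. -/
noncomputable def vF (i : Fin m) (B : { j : Fin m // j ≠ i } → SP C)
    (K : LowerSet (Finset (Fin (m + 1)))) : SP C ⥤ SP (Wr C) where
  obj Z := (vpK i B Z K).toSP
  map p := Sb.restr (vpMap i B p) (vpK i B _ K) (vpK i B _ K) fun _ _ _ h => h
  map_id Z := rfl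
  map_comp p q := rfl

/-- The inclusion `V(K) ⟶ V(K')`. -/
noncomputable def vI (i : Fin m) (B : { j : Fin m // j ≠ i } → SP C)
    {K K' : LowerSet (Finset (Fin (m + 1)))} (h : K ≤ K') : vF i B K ⟶ vF i B K' where
  app Z := Sb.ofLE (S := vpK i B Z K) (T := vpK i B Z K') fun _ _ _ hx => h hx
  naturality _ _ _ := rfl

end Pool.Agent.Helper82.FL2
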