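import Pool.Agent.Helper82.FL2.VWEb
import Pool.Agent.Helper82.FL2.VWEa
import Pool.Agent.Helper61.FL14
import Pool.Agent.Helper94.FL.Holim

/-!
# FL2-H1 (third part): homotopy colimits and `V[m]`
-/

open CategoryTheory MonoidalCategory Opposite HomotopicalAlgebra

set_option autoImplicit false

namespace Pool.Agent.Helper82.FL2

open _root_.FL

section Hoco

variable {A J : Type} [SmallCategory A] [SmallCategory J]

/-- Functoriality of homotopy colimits. -/
def hocoMap {p p' : J ⥤ SP A} (τ : p ⟶ p') : Hoco p ⟶ Hoco p' where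
  app a :=
    { app := fun k => ↾ fun (w : HS p a k) =>
        (⟨w.σ, ((τ.app (w.σ.obj 0)).app a).app k w.x⟩ : HS p' a k)
      naturality := fun k l α => by
        refine ConcreteCategory.hom_ext _ _ fun w => ?_
        refine congrArg (HS.mk (Chain.res (HS.σ w) α.unop)) ?_
        refine Eq.trans ?_ (congrArg (((p'.map ((HS.σ w).zeroTo α.unop)).app a).app l)
          (hom_natk (τ.app ((HS.σ w).obj 0)) α (HS.x w)))
        exact ConcreteCategory.congr_hom (NatTrans.congr_app (NatTrans.congr_app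
          (τ.naturality ((HS.σ w).zeroTo α.unop)) a) l) _ }
  naturality a b f := by
    refine NatTrans.ext (funext fun k => ConcreteCategory.hom_ext _ _ fun w => ?_)
    exact congrArg (HS.mk (HS.σ w)) (hom_nat (τ.app ((HS.σ w).obj 0)) f (HS.x w))

/-- The map of diagrams of mapping spaces. -/
noncomputable def mpDiagMap {p p' : J ⥤ SP A} (τ : p ⟶ p') (X : SP A) :
    mpDiag p' X ⟶ mpDiag p X where
  app j := Mp.pre (τ.app j.unop) X
  naturality j j' f := by
    refine NatTrans.ext (funext fun k => ConcreteCategory.hom_ext _ _ fun φ => ?_)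
    refine MpS.ext ?_
    funext a l s x
    refine congrArg (MpS.app φ a l s) ?_
    exact (ConcreteCategory.congr_hom (NatTrans.congr_app (NatTrans.congr_app
      (τ.naturality f.unop) a) l) x).symm

theorem hoEq_of_isIso {X Y : SSet.{0}} (f : X ⟶ Y) [IsIso f] : HoEq f :=
  ⟨inv f, Pool.Agent.Helper36.FL.htpy_of_eq (IsIso.hom_inv_id f),
    Pool.Agent.Helper36.FL.htpy_of_eq (IsIso.inv_hom_id f)⟩

theorem loc_hoco {X : SP A} (hX : InjFib X) {p p' : J ⥤ SP A} (τ : p ⟶ p')
    (h : ∀ j, Loc X (τ.app j)) : Loc X (hocoMap τ) := by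
  obtain ⟨e, he⟩ := Helper61FL.exists_holimIso p X
  obtain ⟨e', he'⟩ := Helper61FL.exists_holimIso p' X
  have hk : ∀ Y : SP A, SSet.KanComplex (Mp Y X) := fun Y => Pool.Agent.Helper83.FL4.Mp_kan Y hX
  have h1 : HoEq (Mp.post (W J) (mpDiagMap τ X)) :=
    Pool.Agent.Helper94.FL.Holim_hoEq (fun j => hk _) (fun j => hk _) _ fun j => h j.unop
  have h2 : Mp.pre (hocoMap τ) X = e'.hom ≫ Mp.post (W J) (mpDiagMap τ X) ≫ e.inv := by
    rw [← Category.assoc, Iso.eq_comp_inv]
    refine NatTrans.ext (funext fun k => ConcreteCategory.hom_ext _ _ fun ψ => ?_)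
    refine MpS.ext ?_
    funext j l s w
    refine MpS.ext ?_
    funext a m t y
    refine (he k ((Mp.pre (hocoMap τ) X).app k ψ) j l s w a m t y).trans ?_
    refine Eq.trans ?_ (he' k ψ j l s w a m t (((τ.app j.unop).app a).app m y)).symm
    refine congrArg (fun x => MpS.app ψ a m (t ≫ s) x) ?_
    refine congrArg (HS.mk (Chain.res (WS.σ w) t)) ?_
    exact ConcreteCategory.congr_hom (NatTrans.congr_app (NatTrans.congr_app
      (τ.naturality (WS.u w ≫ (WS.σ w).zeroTo t)) a) m) y
  have h3 : SSet.KanComplex (Holim (mpDiag p' X)) :=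
    Pool.Agent.Helper94.FL.Holim_kan fun j => hk _
  show HoEq _
  rw [h2]
  refine Helper85FL.hoEq_comp (hk _) (hk _) (hoEq_of_isIso _) ?_
  exact Helper85FL.hoEq_comp h3 (hk _) h1 (hoEq_of_isIso _)

end Hoco

end Pool.Agent.Helper82.FL2
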