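import Pool.Agent.Helper82.FL2.VWEb
import Pool.Agent.Helper82.FL2.VWEc
import Pool.Agent.Helper45.FL2.LocAll

/-!
# FL2-H1 (fourth part): the pushout square
-/

open CategoryTheory MonoidalCategory Opposite HomotopicalAlgebra

set_option autoImplicit false

namespace Pool.Agent.Helper82.FL2

open _root_.FL

section Assembly

variable {C : Type} [SmallCategory C] {m : ℕ} (i : Fin m) (B : { j : Fin m // j ≠ i } → SP C)
  (K : LowerSet (Finset (Fin (m + 1)))) {J : Type} [SmallCategory J] (p : J ⥤ SP C)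

/-- The map from the empty presheaf. -/
def emptTo (Z : SP C) : empt C ⟶ Z where
  app a :=
    { app := fun k => ↾ fun (x : PEmpty.{1}) => x.elim
      naturality := fun k l α => by
        refine ConcreteCategory.hom_ext _ _ fun (x : PEmpty.{1}) => x.elim }
  naturality a b f := by
    refine NatTrans.ext (funext fun k => ?_)
    refine ConcreteCategory.hom_ext _ _ fun (x : PEmpty.{1}) => x.elim

/-- The projection of a tensor. -/
def tnFst {A : Type} [SmallCategory A] (P : SP A) (N : SSet.{0}) : tn P N ⟶ P where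
  app a := { app := fun k => ↾ fun x => x.1, naturality := fun _ _ _ => rfl }
  naturality _ _ _ := rfl

/-- The upper map of the pushout square. -/
noncomputable def asT : tn ((vF i B K).obj (empt C)) (Nv J) ⟶ Hoco (p ⋙ vF i B K) where
  app a :=
    { app := fun k => ↾ fun w =>
        (⟨w.2, (((vF i B K).map (emptTo (p.obj (Chain.obj w.2 0)))).app a).app k w.1⟩ :
          HS (p ⋙ vF i B K) a k)
      naturality := fun k l α => by
        refine ConcreteCategory.hom_ext _ _ fun w => ?_
        refine congrArg (HS.mk (Chain.res w.2 α.unop)) ?_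
        exact Subtype.ext (VP.ext' rfl (fun r h h' => PEmpty.elim (w.1.1.z r h))
          fun j r h h' => rfl) }
  naturality a b f := by
    refine NatTrans.ext (funext fun k => ConcreteCategory.hom_ext _ _ fun w => ?_)
    refine congrArg (HS.mk w.2) ?_
    exact Subtype.ext (VP.ext' rfl (fun r h h' => PEmpty.elim
      (LS.pull f.unop (Y := empt C) w.1.1.z r h)) fun j r h h' => rfl)

/-- The right map of the pushout square. -/
noncomputable def asV : Hoco (p ⋙ vF i B K) ⟶ (vF i B K).obj (Hoco p) where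
  app a :=
    { app := fun k => ↾ fun (w : HS (p ⋙ vF i B K) a k) =>
        ⟨{ f := w.x.1.f, z := fun r h => ⟨w.σ, w.x.1.z r h⟩, g := w.x.1.g }, w.x.2⟩
      naturality := fun k l α => by
        refine ConcreteCategory.hom_ext _ _ fun w => ?_
        rfl }
  naturality a b f := by
    refine NatTrans.ext (funext fun k => ConcreteCategory.hom_ext _ _ fun w => ?_)
    rfl

theorem asSq : asT i B K p ≫ asV i B K p =
    tnFst _ _ ≫ (vF i B K).map (emptTo (Hoco p)) := by
  refine NatTrans.ext (funext fun a => NatTrans.ext (funext fun k => ?_))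
  refine ConcreteCategory.hom_ext _ _ fun w => ?_
  exact Subtype.ext (VP.ext' rfl (fun r h h' => PEmpty.elim (w.1.1.z r h)) fun j r h h' => rfl)

theorem vF_empt_inj {Z Z' : SP C} (q : Z ⟶ Z') (hq : ∀ a k (x y : (Z.obj a).obj k),
      (q.app a).app k x = (q.app a).app k y → x = y) (a : (Wr C)ᵒᵖ) (k : SimplexCategoryᵒᵖ) :
    Function.Injective ((((vF i B K).map q).app a).app k) := by
  rintro ⟨⟨f, z, g⟩, hu⟩ ⟨⟨f', z', g'⟩, hu'⟩ h
  have h1 := congrArg Subtype.val h
  injection h1 with h2 h3 h4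
  subst h2
  subst h4
  refine Subtype.ext (VP.ext' rfl (fun r h h' => ?_) fun j r h h' => rfl)
  exact hq _ _ _ _ (congrFun (congrFun (eq_of_heq h3) r) h)

theorem asT_inj (a : (Wr C)ᵒᵖ) (k : SimplexCategoryᵒᵖ) :
    Function.Injective (((asT i B K p).app a).app k) := by
  rintro ⟨u, σ⟩ ⟨u', σ'⟩ h
  injection h with h1 h2
  subst h1
  refine Prod.ext ?_ rfl
  exact vF_empt_inj i B K (emptTo (p.obj (Chain.obj σ 0)))
    (fun a k (x : PEmpty.{1}) y _ => x.elim) a k (eq_of_heq h2)

variable {i B K p}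

/-- Simplices which are not in the image of `asT` have a component of label `i`. -/
theorem exists_jump_of {a : (Wr C)ᵒᵖ} {k : SimplexCategoryᵒᵖ}
    (w : HS (p ⋙ vF i B K) a k) (hw : w ∉ Set.range (((asT i B K p).app a).app k)) :
    ∃ r, Jump w.x.1.f r i := by
  by_contra hc
  rw [not_exists] at hc
  refine hw ⟨(⟨{ f := w.x.1.f, z := fun r h => (hc r h).elim, g := w.x.1.g }, w.x.2⟩, w.σ), ?_⟩
  refine congrArg (HS.mk (HS.σ w)) ?_
  exact Subtype.ext (VP.ext' rfl (fun r h h' => (hc r h').elim) fun j r h h' => rfl)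

theorem exists_lift_z {a : ℕ} {c : Fin a → C} {f : Fin (a + 1) →o Fin (m + 1)}
    {k : SimplexCategoryᵒᵖ} (z : LS (Hoco p) c f i k) {r : Fin a} (h : Jump f r i) :
    ∃ (σ : Chain J k.unop) (z' : LS (p.obj (σ.obj 0)) c f i k), z = fun r h => ⟨σ, z' r h⟩ := by
  refine ⟨(z r h).σ, ?_⟩
  have key : ∀ r' (h' : Jump f r' i), ∃ x, z r' h' = ⟨(z r h).σ, x⟩ := by
    intro r' h'
    obtain rfl := h.unique h'
    exact ⟨(z r h).x, rfl⟩
  choose z' hz' using key
  exact ⟨z', funext fun r' => funext fun h' => hz' r' h'⟩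

variable (i B K p)

theorem asPo : IsPushout (asT i B K p) (tnFst _ _) (asV i B K p)
    ((vF i B K).map (emptTo (Hoco p))) := by
  refine Pool.Agent.Helper45.LOC.isPushout_of_elem _ _ _ _ (asSq i B K p) (asT_inj i B K p)
    (vF_empt_inj i B K (emptTo (Hoco p)) fun a k (x : PEmpty.{1}) y _ => x.elim) ?_ ?_ ?_
  · intro a k x y hx hy h
    obtain ⟨r, hr⟩ := exists_jump_of x hx
    obtain ⟨σ, ⟨⟨f, z, g⟩, hu⟩⟩ := x
    obtain ⟨σ', ⟨⟨f', z', g'⟩, hu'⟩⟩ := y
    have h1 := congrArg Subtype.val h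
    injection h1 with h2 h3 h4
    simp only at h2
    subst h2
    have h5 := fun r hr => congrFun (congrFun (eq_of_heq h3) r) hr
    have h6 : σ = σ' := congrArg HS.σ (h5 r hr)
    subst h6
    refine congrArg (HS.mk σ) ?_
    refine Subtype.ext (VP.ext' rfl (fun r h h' => ?_) fun j r h h' => ?_)
    · have h7 := h5 r h
      injection h7
    · exact congrFun (congrFun (congrFun (eq_of_heq h4) j) r) h
  · rintro a k x hx ⟨y, hy⟩
    obtain ⟨r, hr⟩ := exists_jump_of x hx
    have h1 := congrArg Subtype.val hy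
    have h2 : y.1.f = x.x.1.f := congrArg VP.f h1
    rw [← h2] at hr
    exact PEmpty.elim (y.1.z r hr)
  · rintro a k ⟨⟨f, z, g⟩, hu⟩
    by_cases hj : ∃ r, Jump f r i
    · obtain ⟨r, hr⟩ := hj
      obtain ⟨σ, z', rfl⟩ := exists_lift_z z hr
      exact Or.inl ⟨⟨σ, ⟨⟨f, z', g⟩, hu⟩⟩, rfl⟩
    · rw [not_exists] at hj
      refine Or.inr ⟨⟨{ f := f, z := fun r h => (hj r h).elim, g := g }, hu⟩, ?_⟩
      exact Subtype.ext (VP.ext' rfl (fun r h h' => (hj r h').elim) fun j r h h' => rfl)

end Assembly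

end Pool.Agent.Helper82.FL2
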